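import Pool.Agent.Lib.MP_1e9af3_an.Wind

/-! The local index of a complex valued function of a complex variable. -/

open Set Filter Topology Complex Metric Bornology
open scoped ComplexConjugate

namespace Pool.Agent.Lib.MP_1c0d65_gt.W

open Pool.Agent.Lib.MP_1e9af3_an

/-- Along `F` the function `f` is `(z - a) ^ k` times the exponential of a continuous function. -/
def Idx (F : Filter ℂ) (a : ℂ) (f : ℂ → ℂ) (k : ℤ) : Prop :=
  ∃ h : ℂ → ℂ, ∀ᶠ z in F, ContinuousAt h z ∧ f z = (z - a) ^ k * exp (h z)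

/-- The local index of `f` at the point `a` is `k`. -/
abbrev HasIdx (f : ℂ → ℂ) (a : ℂ) (k : ℤ) : Prop := Idx (𝓝[≠] a) a f k

/-- The winding number of `f` on big circles is `k`. -/
abbrev HasInf (f : ℂ → ℂ) (k : ℤ) : Prop := Idx (cobounded ℂ) 0 f k

/-- An end of the plane minus the point `a`. -/
structure End (F : Filter ℂ) (a : ℂ) : Prop where
  ne : ∀ᶠ z in F, z ≠ a
  op : ∀ {P : ℂ → Prop}, (∀ᶠ z in F, P z) → ∀ᶠ z in F, ∀ᶠ w in 𝓝 z, P w
  ann : ∀ {P : ℂ → Prop}, (∀ᶠ z in F, P z) → ∃ S : Set ℝ, S.OrdConnected ∧ IsOpen S ∧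
    (∀ r ∈ S, 0 < r) ∧ S.Nonempty ∧ (∀ᶠ z in F, ‖z - a‖ ∈ S) ∧ ∀ z, ‖z - a‖ ∈ S → P z

theorem pn_iff {a : ℂ} {P : ℂ → Prop} :
    (∀ᶠ z in 𝓝[≠] a, P z) ↔ ∃ r > 0, ∀ z, 0 < ‖z - a‖ → ‖z - a‖ < r → P z := by
  rw [eventually_nhdsWithin_iff, Metric.eventually_nhds_iff]
  simp only [dist_eq_norm, mem_compl_iff, mem_singleton_iff, norm_pos_iff, sub_ne_zero]
  exact ⟨fun ⟨r, hr, h⟩ => ⟨r, hr, fun z h1 h2 => h h2 h1⟩,
    fun ⟨r, hr, h⟩ => ⟨r, hr, fun z h1 h2 => h z h2 h1⟩⟩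

theorem inf_iff (a : ℂ) {P : ℂ → Prop} :
    (∀ᶠ z in cobounded ℂ, P z) ↔ ∃ R > 0, ∀ z, R < ‖z - a‖ → P z := by
  rw [(Metric.hasBasis_cobounded_compl_closedBall a).eventually_iff]
  simp only [mem_compl_iff, mem_closedBall, dist_eq_norm, not_le, true_and]
  exact ⟨fun ⟨r, h⟩ => ⟨max r 1, by positivity, fun z hz => h ((le_max_left _ _).trans_lt hz)⟩,
    fun ⟨r, _, h⟩ => ⟨r, h⟩⟩

theorem end_pn (a : ℂ) : End (𝓝[≠] a) a where
  ne := self_mem_nhdsWithin
  op h := by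
    filter_upwards [eventually_eventually_nhdsWithin.2 h, self_mem_nhdsWithin] with z h1 h2
    rwa [isOpen_compl_singleton.nhdsWithin_eq h2] at h1
  ann h := by
    obtain ⟨r, hr, h⟩ := pn_iff.1 h
    exact ⟨Ioo 0 r, ordConnected_Ioo, isOpen_Ioo, fun _ h => h.1, nonempty_Ioo.2 hr,
      pn_iff.2 ⟨r, hr, fun _ h1 h2 => ⟨h1, h2⟩⟩, fun z hz => h z hz.1 hz.2⟩

theorem end_inf (a : ℂ) : End (cobounded ℂ) a where
  ne := (inf_iff a).2 ⟨1, one_pos, fun z hz e => by rw [e] at hz; norm_num at hz⟩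
  op h := by
    obtain ⟨r, hr, h⟩ := (inf_iff a).1 h
    refine (inf_iff a).2 ⟨r, hr, fun z hz => ?_⟩
    have : ∀ᶠ w in 𝓝 z, r < ‖w - a‖ :=
      (by fun_prop : ContinuousAt (fun w : ℂ => ‖w - a‖) z).eventually (lt_mem_nhds hz)
    exact this.mono h
  ann h := by
    obtain ⟨r, hr, h⟩ := (inf_iff a).1 h
    exact ⟨Ioi r, ordConnected_Ioi, isOpen_Ioi, fun _ h => hr.trans h, nonempty_Ioi,
      (inf_iff a).2 ⟨r, hr, fun _ h1 => h1⟩, h⟩

variable {F : Filter ℂ} {a : ℂ} {f g : ℂ → ℂ} {k m : ℤ}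

theorem Idx.congr (h : Idx F a f k) (e : f =ᶠ[F] g) : Idx F a g k := by
  obtain ⟨l, hl⟩ := h
  exact ⟨l, (hl.and e).mono fun z hz => ⟨hz.1.1, hz.2 ▸ hz.1.2⟩⟩

theorem Idx.cast (h : Idx F a f k) (e : k = m) : Idx F a f m := e ▸ h

theorem Idx.mono {G : Filter ℂ} (h : Idx F a f k) (e : G ≤ F) : Idx G a f k := by
  obtain ⟨l, hl⟩ := h
  exact ⟨l, hl.filter_mono e⟩

theorem idx_exp {l : ℂ → ℂ} (h : ∀ᶠ z in F, ContinuousAt l z) :
    Idx F a (fun z => exp (l z)) 0 := ⟨l, h.mono fun z hz => ⟨hz, by simp⟩⟩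

theorem idx_const {c : ℂ} (hc : c ≠ 0) : Idx F a (fun _ => c) 0 :=
  ⟨fun _ => log c, Eventually.of_forall fun z => ⟨continuousAt_const, by simp [exp_log hc]⟩⟩

theorem idx_zpow (F : Filter ℂ) (a : ℂ) (k : ℤ) : Idx F a (fun z => (z - a) ^ k) k :=
  ⟨fun _ => 0, Eventually.of_forall fun z => ⟨continuousAt_const, by simp⟩⟩

theorem idx_pow (F : Filter ℂ) (a : ℂ) (n : ℕ) : Idx F a (fun z => (z - a) ^ n) n := by
  simpa using idx_zpow F a n

theorem idx_sub (F : Filter ℂ) (a : ℂ) : Idx F a (fun z => z - a) 1 := by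
  simpa using idx_zpow F a 1

theorem idx_id (F : Filter ℂ) : Idx F 0 (fun z => z) 1 := by simpa using idx_sub F 0

theorem idx_slit (h : ∀ᶠ z in F, ContinuousAt f z ∧ f z ∈ slitPlane) : Idx F a f 0 :=
  ⟨fun z => log (f z), h.mono fun z hz => ⟨hz.1.clog hz.2, by
    simp [exp_log (slitPlane_ne_zero hz.2)]⟩⟩

/-- Positive real factors do not count. -/
theorem idx_pos {p : ℂ → ℝ} (h : ∀ᶠ z in F, ContinuousAt p z ∧ 0 < p z) :
    Idx F a (fun z => (p z : ℂ)) 0 :=
  idx_slit (h.mono fun z hz => ⟨continuous_ofReal.continuousAt.comp hz.1,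
    ofReal_mem_slitPlane.2 hz.2⟩)

theorem Idx.zpow (h : Idx F a f k) (n : ℤ) : Idx F a (fun z => f z ^ n) (k * n) := by
  obtain ⟨l, hl⟩ := h
  refine ⟨fun z => n * l z, hl.mono fun z hz => ⟨continuousAt_const.mul hz.1, ?_⟩⟩
  simp only [hz.2, mul_zpow, zpow_mul, exp_int_mul]

theorem Idx.pow (h : Idx F a f k) (n : ℕ) : Idx F a (fun z => f z ^ n) (k * n) := by
  simpa using h.zpow n

theorem Idx.inv (h : Idx F a f k) : Idx F a (fun z => (f z)⁻¹) (-k) := by
  simpa using h.zpow (-1)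

namespace End

variable (hF : End F a)
include hF

theorem ne_zero (h : Idx F a f k) : ∀ᶠ z in F, f z ≠ 0 := by
  obtain ⟨l, hl⟩ := h
  filter_upwards [hl, hF.ne] with z h1 h2
  rw [h1.2]
  exact mul_ne_zero (zpow_ne_zero _ (sub_ne_zero.2 h2)) (exp_ne_zero _)

theorem cont (h : Idx F a f k) : ∀ᶠ z in F, ContinuousAt f z := by
  obtain ⟨l, hl⟩ := h
  filter_upwards [hF.op hl, hl, hF.ne] with z h1 h2 h3
  have : ContinuousAt (fun w => (w - a) ^ k * exp (l w)) z :=
    ((continuousAt_id.sub continuousAt_const).zpow₀ k (Or.inl (sub_ne_zero.2 h3))).mul h2.1.cexp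
  exact this.congr (h1.mono fun w hw => hw.2.symm)

theorem mul (h : Idx F a f k) (h' : Idx F a g m) : Idx F a (fun z => f z * g z) (k + m) := by
  obtain ⟨l, hl⟩ := h
  obtain ⟨l', hl'⟩ := h'
  refine ⟨fun z => l z + l' z, ?_⟩
  filter_upwards [hl, hl', hF.ne] with z h1 h2 h3
  refine ⟨h1.1.add h2.1, ?_⟩
  rw [h1.2, h2.2, zpow_add₀ (sub_ne_zero.2 h3), exp_add]; ring

theorem div (h : Idx F a f k) (h' : Idx F a g m) : Idx F a (fun z => f z / g z) (k - m) := by
  simpa [div_eq_mul_inv, sub_eq_add_neg] using hF.mul h h'.inv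

theorem prod {ι : Type*} (s : Finset ι) {f : ι → ℂ → ℂ} {k : ι → ℤ}
    (h : ∀ i ∈ s, Idx F a (f i) (k i)) : Idx F a (fun z => ∏ i ∈ s, f i z) (∑ i ∈ s, k i) := by
  classical
  induction s using Finset.induction_on with
  | empty => simpa using idx_const (F := F) (a := a) one_ne_zero
  | insert i s hi ih =>
    simp only [Finset.prod_insert hi, Finset.sum_insert hi]
    exact hF.mul (h i (Finset.mem_insert_self _ _))
      (ih fun j hj => h j (Finset.mem_insert_of_mem hj))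

/-- Dog on a leash. -/
theorem close (h : Idx F a f k) (hg : ∀ᶠ z in F, ContinuousAt g z ∧ ‖g z - f z‖ < ‖f z‖) :
    Idx F a g k := by
  have h1 : Idx F a (fun z => g z / f z) 0 := idx_slit (by
    filter_upwards [hg, hF.cont h, hF.ne_zero h] with z h1 h2 h3
    exact ⟨h1.1.div h2 h3, mem_slit_of_close h1.2⟩)
  refine ((hF.mul h h1).cast (add_zero k)).congr ?_
  filter_upwards [hF.ne_zero h] with z hz
  field_simp

theorem unit {b : ℂ} (hb : b ≠ 0) (hc : ∀ᶠ z in F, ContinuousAt f z) (h : Tendsto f F (𝓝 b)) :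
    Idx F a f 0 := by
  refine hF.close (idx_const hb) (hc.and ?_)
  have := h.eventually (ball_mem_nhds b (norm_pos_iff.2 hb))
  simpa [dist_eq_norm] using this

/-- The index is the order of the leading term. -/
theorem of_lim {b : ℂ} (hb : b ≠ 0) (hc : ∀ᶠ z in F, ContinuousAt f z)
    (h : Tendsto (fun z => ((z - a) ^ k)⁻¹ * f z) F (𝓝 b)) : Idx F a f k := by
  have h1 := hF.unit hb (by
    filter_upwards [hc, hF.cont (idx_zpow F a k).inv] with z h1 h2 using h2.mul h1) h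
  refine ((hF.mul (idx_zpow F a k) h1).cast (add_zero k)).congr ?_
  filter_upwards [hF.ne_zero (idx_zpow F a k)] with z hz
  field_simp

theorem cj (h : Idx F a f k) : Idx F a (fun z => conj (f z)) (-k) := by
  have h1 : Idx F a (fun z => ((normSq (f z) : ℝ) : ℂ)) 0 := idx_pos (by
    filter_upwards [hF.cont h, hF.ne_zero h] with z h1 h2
    exact ⟨continuous_normSq.continuousAt.comp h1, normSq_pos.2 h2⟩)
  refine ((hF.div h1 h).cast (zero_sub k)).congr ?_
  filter_upwards [hF.ne_zero h] with z hz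
  rw [← mul_conj]; field_simp

theorem neg (h : Idx F a f k) : Idx F a (fun z => -f z) k := by
  simpa using hF.mul (idx_const (c := -1) (by norm_num)) h

theorem const_mul (h : Idx F a f k) {c : ℂ} (hc : c ≠ 0) : Idx F a (fun z => c * f z) k := by
  simpa using hF.mul (idx_const hc) h

/-- Composition: indices multiply. -/
theorem comp {G : Filter ℂ} {b : ℂ} {σ : ℂ → ℂ} (h : Idx G b f k) (ht : Tendsto σ F G)
    (hσ : Idx F a (fun z => σ z - b) m) : Idx F a (fun z => f (σ z)) (m * k) := by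
  obtain ⟨l, hl⟩ := h
  have hc : ∀ᶠ z in F, ContinuousAt σ z := (hF.cont hσ).mono fun z hz => by
    refine (hz.add (continuousAt_const (y := b))).congr (Eventually.of_forall fun w => ?_)
    simp
  have h1 : Idx F a (fun z => exp (l (σ z))) 0 := idx_exp (by
    filter_upwards [ht.eventually hl, hc] with z h1 h2 using h1.1.comp h2)
  refine ((hF.mul (hσ.zpow k) h1).cast (add_zero _)).congr ?_
  filter_upwards [ht.eventually hl] with z hz using hz.2.symm

end End

/-- The circle with centre `a` and radius `r`. -/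
noncomputable def cir (a : ℂ) (r : ℝ) (θ : ℝ) : ℂ := a + r * ee θ

@[fun_prop] theorem continuous_cir (a : ℂ) (r : ℝ) : Continuous (cir a r) := by
  unfold cir; fun_prop

theorem cir_per (a : ℂ) (r θ : ℝ) : cir a r (θ + 1) = cir a r θ := by
  simp [cir, ee_add_one]

theorem norm_cir (a : ℂ) {r : ℝ} (hr : 0 ≤ r) (θ : ℝ) : ‖cir a r θ - a‖ = r := by
  simp [cir, norm_ee_real, abs_of_nonneg hr]

theorem hasWind_zpow {Γ : ℝ → ℂ} (h : HasWind Γ k) (n : ℤ) :
    HasWind (fun θ => Γ θ ^ n) (n * k) := by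
  obtain ⟨l, hl, he, hp⟩ := h
  refine ⟨fun θ => n * l θ, by fun_prop, fun θ => by rw [ee_zsmul, he], fun θ => ?_⟩
  simp only [hp]; push_cast; ring

theorem hasWind_exp {l : ℝ → ℂ} (hl : Continuous l) (hp : ∀ θ, l (θ + 1) = l θ) :
    HasWind (fun θ => exp (l θ)) 0 :=
  ⟨fun θ => l θ / tpi, hl.div_const _, fun θ => (exp_eq_ee _).symm, fun θ => by simp [hp]⟩

theorem hasWind_cir (a : ℂ) {r : ℝ} (hr : 0 < r) : HasWind (fun θ => cir a r θ - a) 1 :=
  (hasWind_circle (c := r) (by exact_mod_cast hr.ne')).congr fun θ => by simp [cir]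

theorem hasWind_rep {l : ℂ → ℂ} {r : ℝ} (hr : 0 < r)
    (h : ∀ z, ‖z - a‖ = r → ContinuousAt l z ∧ f z = (z - a) ^ k * exp (l z)) :
    HasWind (fun θ => f (cir a r θ)) k := by
  have h1 : Continuous fun θ => l (cir a r θ) := continuous_iff_continuousAt.2 fun θ =>
    (h _ (norm_cir a hr.le θ)).1.comp (continuous_cir a r).continuousAt
  have h2 := (hasWind_zpow (hasWind_cir a hr) k).mul (hasWind_exp h1 fun θ => by rw [cir_per])
  rw [mul_one, add_zero] at h2
  exact h2.congr fun θ => (h _ (norm_cir a hr.le θ)).2.symm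

theorem End.unique (hF : End F a) (h : Idx F a f k) (h' : Idx F a f m) : k = m := by
  obtain ⟨l, hl⟩ := h
  obtain ⟨l', hl'⟩ := h'
  obtain ⟨S, -, -, h0, ⟨r, hr⟩, -, hS⟩ := hF.ann (hl.and hl')
  exact (hasWind_rep (h0 r hr) fun z hz => (hS z (hz ▸ hr)).1).unique
    (hasWind_rep (h0 r hr) fun z hz => (hS z (hz ▸ hr)).2)

theorem HasIdx.wind (h : HasIdx f a k) :
    ∀ᶠ r in 𝓝[>] (0 : ℝ), HasWind (fun θ => f (cir a r θ)) k := by
  obtain ⟨l, hl⟩ := h
  obtain ⟨r, hr, h⟩ := pn_iff.1 hl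
  filter_upwards [Ioo_mem_nhdsGT hr] with s hs
  exact hasWind_rep hs.1 fun z hz => h z (hz ▸ hs.1) (hz ▸ hs.2)

theorem HasInf.wind (h : HasInf f k) :
    ∀ᶠ r in atTop, HasWind (fun θ => f (cir 0 r θ)) k := by
  obtain ⟨l, hl⟩ := h
  obtain ⟨r, hr, h⟩ := (inf_iff 0).1 hl
  filter_upwards [eventually_gt_atTop r] with s hs
  exact hasWind_rep (hr.trans hs) fun z hz => h z (hz ▸ hs)

/-- The factorisation on an annulus. -/
theorem ann_log {S : Set ℝ} (hS : S.OrdConnected) (ho : IsOpen S) (h0 : ∀ r ∈ S, 0 < r)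
    (hne : S.Nonempty) (hf : ∀ z, ‖z - a‖ ∈ S → ContinuousAt f z ∧ f z ≠ 0) :
    ∃ (k : ℤ) (l : ℂ → ℂ), ∀ z, ‖z - a‖ ∈ S →
      ContinuousAt l z ∧ f z = (z - a) ^ k * exp (l z) := by
  set U : Set ℂ := {w | ‖ee w‖ ∈ S} with hU
  have hUo : IsOpen U := ho.preimage (by fun_prop)
  have hUc : Convex ℝ U := by
    have h1 : Antitone fun t : ℝ => Real.exp (-(2 * Real.pi * t)) := fun s t hst =>
      Real.exp_le_exp.2 (by nlinarith [Real.pi_pos])
    have h2 := (hS.preimage_anti h1).convex.linear_preimage imLm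
    have e : U = imLm ⁻¹' ((fun t : ℝ => Real.exp (-(2 * Real.pi * t))) ⁻¹' S) := by
      ext w; simp [hU, norm_ee]
    exact e ▸ h2
  have hm : ∀ z, ‖z - a‖ ∈ S → ee (log (z - a) / tpi) = z - a := fun z hz =>
    ee_log (norm_pos_iff.1 (h0 _ hz))
  obtain ⟨r, hr⟩ := hne
  have hr' : ‖a + r - a‖ ∈ S := by simpa [abs_of_pos (h0 r hr)] using hr
  set w0 := log (a + r - a) / tpi with hw0
  have hw : w0 ∈ U := by simp only [hU, mem_ofPred_eq, hw0, hm _ hr']; exact hr'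
  obtain ⟨l, hl, he⟩ := exists_lift hUc hUo ⟨w0, hw⟩ (g := fun w => f (a + ee w))
    (fun w hw => ((hf _ (by simpa [hU] using hw)).1.comp (f := fun w => a + ee w)
      (by fun_prop)).continuousWithinAt) (fun w hw => (hf _ (by simpa [hU] using hw)).2)
  have hUn : ∀ (n : ℤ), ∀ w ∈ U, w + n ∈ U := fun n w hw => by
    simpa only [hU, mem_ofPred_eq, ee_add_int] using hw
  have hU1 : ∀ w ∈ U, w + 1 ∈ U := fun w hw => by simpa using hUn 1 w hw
  have hi : ∀ w ∈ U, ∃ n : ℤ, l (w + 1) - l w = n := fun w hw => by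
    obtain ⟨n, hn⟩ := ee_eq_iff.1 (show ee (l (w + 1)) = ee (l w) by
      rw [he _ hw, he _ (hU1 w hw), ee_add_one])
    exact ⟨n, by rw [hn]; ring⟩
  obtain ⟨k, hk⟩ := hi w0 hw
  have hk1 : ∀ w ∈ U, l (w + 1) = l w + k := fun w hw' => by
    have := int_const hUc.isPreconnected (g := fun w => l (w + 1) - l w)
      ((hl.comp (by fun_prop) hU1).sub hl) hi hw' hw
    rw [hk] at this
    linear_combination this
  have hkn : ∀ (n : ℤ), ∀ w ∈ U, l (w + n) - k * (w + n) = l w - k * w := fun n w hw => by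
    induction n using Int.induction_on with
    | zero => simp
    | succ n ih =>
      have := hk1 _ (hUn n w hw)
      push_cast at *
      rw [← add_assoc, this]; linear_combination ih
    | pred n ih =>
      have := hk1 _ (hUn (-n - 1) w hw)
      push_cast at *
      rw [show w + (-n - 1) + 1 = w + -n by ring] at this
      linear_combination ih - this
  refine ⟨k, fun z => tpi * (l (log (z - a) / tpi) - k * (log (z - a) / tpi)), fun z hz => ?_⟩
  have hz0 : z - a ≠ 0 := norm_pos_iff.1 (h0 _ hz)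
  have hzU : log (z - a) / tpi ∈ U := by simp only [hU, mem_ofPred_eq, hm _ hz]; exact hz
  constructor
  · set b : ℂ → ℂ := fun w => (log ((w - a) / (z - a)) + log (z - a)) / tpi with hb
    have hbc : ContinuousAt b z := ((ContinuousAt.clog (by fun_prop) (by simp [hz0])).add
      continuousAt_const).div_const _
    have hbz : b z = log (z - a) / tpi := by simp [hb, hz0]
    have h1 : ContinuousAt (fun w => tpi * (l (b w) - k * b w)) z :=
      continuousAt_const.mul ((ContinuousAt.comp (f := b)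
        (by rw [hbz]; exact hl.continuousAt (hUo.mem_nhds hzU)) hbc).sub
          (continuousAt_const.mul hbc))
    refine h1.congr ?_
    have h2 : ∀ᶠ w in 𝓝 z, ‖w - a‖ ∈ S :=
      (by fun_prop : ContinuousAt (fun w : ℂ => ‖w - a‖) z).eventually (ho.mem_nhds hz)
    filter_upwards [h2] with w hw
    have hw0 : w - a ≠ 0 := norm_pos_iff.1 (h0 _ hw)
    obtain ⟨n, hn⟩ := ee_eq_iff.1 (show ee (b w) = ee (log (w - a) / tpi) by
      rw [hm _ hw, hb, ← exp_eq_ee, exp_add, exp_log hz0, exp_log (div_ne_zero hw0 hz0)]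
      field_simp)
    rw [hn, hkn n _ (by simp only [hU, mem_ofPred_eq, hm _ hw]; exact hw)]
  · have h1 := he _ hzU
    simp only [hm _ hz, add_sub_cancel] at h1
    change f z = (z - a) ^ k * ee _
    rw [ee_sub, ee_zsmul, hm _ hz, h1]
    have := zpow_ne_zero k hz0
    field_simp

theorem End.exists_idx (hF : End F a) (h : ∀ᶠ z in F, ContinuousAt f z ∧ f z ≠ 0) :
    ∃ k, Idx F a f k := by
  obtain ⟨S, h1, h2, h3, h4, h5, h6⟩ := hF.ann h
  obtain ⟨k, l, hl⟩ := ann_log h1 h2 h3 h4 h6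
  exact ⟨k, l, h5.mono hl⟩

end Pool.Agent.Lib.MP_1c0d65_gt.W
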