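import Pool.Agent.Lib.MP_1c0d65_gt.W.Arg

/-! Periods under the substitution `s = a + ζ ^ N`. -/

open Set Filter Topology Complex Metric Bornology MeasureTheory
open scoped Real

namespace Pool.Agent.Lib.MP_1c0d65_gt.W

variable {W : Type*} [NormedAddCommGroup W] [NormedSpace ℝ W] {ψ φ : ℂ → ℂ →L[ℝ] W} {a : ℂ}
  {r : ℝ} {N : ℕ}

theorem cm_pow (a : ℂ) (r θ : ℝ) (N : ℕ) :
    a + circleMap 0 r θ ^ N = circleMap a (r ^ N) (N * θ) := by
  rw [circleMap_zero_pow]; simp [circleMap]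

theorem cp_pow (hN : N ≠ 0) (hc : ∀ θ, ContinuousAt ψ (circleMap a (r ^ N) θ))
    (h : ∀ θ v, φ (circleMap 0 r θ) v =
      ψ (a + circleMap 0 r θ ^ N) (N * circleMap 0 r θ ^ (N - 1) * v)) :
    cp φ 0 r = (N : ℝ) • cp ψ a (r ^ N) := by
  set F : ℝ → W := fun t => ψ (circleMap a (r ^ N) t) (circleMap 0 (r ^ N) t * I) with hF
  have h1 : ∀ θ, φ (circleMap 0 r θ) (circleMap 0 r θ * I) = (N : ℝ) • F (N * θ) := fun θ => by
    rw [h, cm_pow, hF, ← map_smul, ← circleMap_zero_pow]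
    congr 1
    rw [real_smul, ofReal_natCast, ← pow_sub_one_mul hN (circleMap 0 r θ)]; ring
  have hp : Function.Periodic F (2 * π) := fun t => by simp only [hF, periodic_circleMap _ _ t]
  have hi : ∀ s t, IntervalIntegrable F volume s t := fun s t =>
    ((continuous_iff_continuousAt.2 fun θ => (hc θ).comp
      (continuous_circleMap a _).continuousAt).clm_apply
        ((continuous_circleMap 0 _).mul continuous_const)).intervalIntegrable _ _
  have h2 := hp.intervalIntegral_add_zsmul_eq (N : ℤ) (N * -π) hi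
  rw [hp.intervalIntegral_add_eq _ (-π), show -π + 2 * π = π by ring,
    show (N : ℝ) * -π + (N : ℤ) • (2 * π) = N * π by simp; ring] at h2
  simp only [cp, h1]
  rw [intervalIntegral.integral_smul, intervalIntegral.smul_integral_comp_mul_left, h2,
    natCast_zsmul, Nat.cast_smul_eq_nsmul]

theorem tendsto_pow_pn (hN : N ≠ 0) (a : ℂ) :
    Tendsto (fun ζ : ℂ => a + ζ ^ N) (𝓝[≠] 0) (𝓝[≠] a) :=
  tendsto_nhdsWithin_iff.2 ⟨by
    have : Tendsto (fun ζ : ℂ => a + ζ ^ N) (𝓝 0) (𝓝 (a + 0 ^ N)) :=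
      (by fun_prop : ContinuousAt (fun ζ : ℂ => a + ζ ^ N) 0)
    simpa [hN] using this.mono_left nhdsWithin_le_nhds,
    eventually_nhdsWithin_of_forall fun z hz => by simpa [hN] using hz⟩

theorem hasIdx_pow (N : ℕ) (a : ℂ) : HasIdx (fun ζ : ℂ => a + ζ ^ N - a) 0 N := by
  simpa using idx_pow (𝓝[≠] 0) 0 N

/-- The residue at an orbifold puncture. -/
theorem res_orb (hN : N ≠ 0) {c : W} (hc : ∀ᶠ s in 𝓝[≠] a, ContinuousAt ψ s)
    (h : ∀ᶠ ζ in 𝓝[≠] (0 : ℂ), ∀ v, φ ζ v = ψ (a + ζ ^ N) (N * ζ ^ (N - 1) * v))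
    (h1 : Tendsto (cp φ 0) (𝓝[>] 0) (𝓝 c)) :
    Tendsto (cp ψ a) (𝓝[>] 0) (𝓝 ((N : ℝ)⁻¹ • c)) := by
  have hN' : (N : ℝ) ≠ 0 := Nat.cast_ne_zero.2 hN
  have t1 : Tendsto (fun s : ℝ => s ^ (N : ℝ)⁻¹) (𝓝[>] 0) (𝓝[>] 0) :=
    tendsto_nhdsWithin_iff.2 ⟨by
      have := (Real.continuousAt_rpow_const 0 (N : ℝ)⁻¹ (Or.inr (by positivity))).tendsto
      rw [Real.zero_rpow (inv_ne_zero hN')] at this
      exact this.mono_left nhdsWithin_le_nhds,
      eventually_nhdsWithin_of_forall fun s hs => Real.rpow_pos_of_pos hs _⟩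
  refine ((h1.comp t1).const_smul (N : ℝ)⁻¹).congr' ?_
  filter_upwards [rad_pn hc, t1.eventually (rad_pn h)] with s h2 h3
  have e : (s ^ (N : ℝ)⁻¹) ^ N = s := Real.rpow_inv_natCast_pow h2.1.le hN
  rw [Function.comp_apply, cp_pow hN (e.symm ▸ h2.2) h3.2, e, inv_smul_smul₀ hN']

end Pool.Agent.Lib.MP_1c0d65_gt.W
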