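import Pool.Agent.Lib.MP_1c0d65_gt.W.Idx

/-! The sum of the local indices. -/

open Set Filter Topology Complex Metric Bornology

namespace Pool.Agent.Lib.MP_1c0d65_gt.W

open Pool.Agent.Lib.MP_1e9af3_an

variable {f g : ℂ → ℂ} {a : ℂ} {k : ℂ → ℤ}

theorem hasIdx_unit (hc : ∀ᶠ z in 𝓝 a, ContinuousAt f z) (h0 : f a ≠ 0) : HasIdx f a 0 :=
  (end_pn a).unit h0 (hc.filter_mono nhdsWithin_le_nhds)
    (hc.self_of_nhds.tendsto.mono_left nhdsWithin_le_nhds)

/-- The global factorisation on a convex set. -/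
theorem factor {U : Set ℂ} (hU : Convex ℝ U) (ho : IsOpen U) (Z : Finset ℂ)
    (h : ∀ z ∈ U, z ∉ Z → ContinuousAt f z ∧ f z ≠ 0) (hk : ∀ a ∈ Z, HasIdx f a (k a)) :
    ∃ l : ℂ → ℂ, ∀ z ∈ U, z ∉ Z →
      ContinuousAt l z ∧ f z = (∏ a ∈ Z, (z - a) ^ k a) * exp (l z) := by
  classical
  induction Z using Finset.induction_on generalizing f with
  | empty =>
    rcases U.eq_empty_or_nonempty with rfl | hne
    · simp
    obtain ⟨l, hl, he⟩ := exists_lift hU ho hne (g := f)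
      (fun z hz => (h z hz (by simp)).1.continuousWithinAt) fun z hz => (h z hz (by simp)).2
    exact ⟨fun z => tpi * l z, fun z hz _ => ⟨continuousAt_const.mul
      (hl.continuousAt (ho.mem_nhds hz)), by simpa [ee] using (he z hz).symm⟩⟩
  | insert a Z ha ih =>
    obtain ⟨l, hl⟩ := hk a (by simp)
    obtain ⟨ε, hε, hl⟩ := pn_iff.1 hl
    let ρ : ContDiffBump a := ⟨ε / 4, ε / 2, by positivity, by linarith⟩
    set φ : ℂ → ℂ := fun z => ρ z * l z with hφ
    have cφ : ∀ z ≠ a, ContinuousAt φ z := fun z hz => by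
      by_cases hm : ‖z - a‖ < ε
      · exact (continuous_ofReal.comp ρ.continuous).continuousAt.mul
          (hl z (norm_pos_iff.2 (sub_ne_zero.2 hz)) hm).1
      · refine (continuousAt_const (y := (0 : ℂ))).congr ?_
        have : ∀ᶠ w in 𝓝 z, ε / 2 < ‖w - a‖ :=
          (by fun_prop : ContinuousAt (fun w : ℂ => ‖w - a‖) z).eventually
            (lt_mem_nhds ((half_lt_self hε).trans_le (not_lt.1 hm)))
        filter_upwards [this] with w hw
        simp [hφ, ρ.zero_of_le_dist (x := w) (by rw [dist_eq_norm]; exact hw.le)]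
    set u : ℂ → ℂ := fun z => ((z - a) ^ k a * exp (φ z))⁻¹ with hu
    have u0 : ∀ z ≠ a, u z ≠ 0 := fun z hz =>
      inv_ne_zero (mul_ne_zero (zpow_ne_zero _ (sub_ne_zero.2 hz)) (exp_ne_zero _))
    have cu : ∀ z ≠ a, ContinuousAt u z := fun z hz =>
      (((continuousAt_id.sub continuousAt_const).zpow₀ _ (Or.inl (sub_ne_zero.2 hz))).mul
        (cφ z hz).cexp).inv₀ fun e => u0 z hz (inv_eq_zero.2 e)
    set g : ℂ → ℂ := Function.update (fun z => f z * u z) a 1 with hg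
    have g1 : ∀ z ≠ a, g =ᶠ[𝓝 z] fun w => f w * u w := fun z hz =>
      (eventually_ne_nhds hz).mono fun w hw => Function.update_of_ne hw _ _
    have g2 : g =ᶠ[𝓝 a] fun _ => 1 := by
      filter_upwards [ball_mem_nhds a (show 0 < ε / 4 by positivity)] with w hw
      by_cases e : w = a
      · simp [hg, e]
      have h1 : ρ w = 1 := ρ.one_of_mem_closedBall (ball_subset_closedBall hw)
      have h2 := (hl w (norm_pos_iff.2 (sub_ne_zero.2 e))
        (by rw [mem_ball, dist_eq_norm] at hw; linarith)).2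
      have h3 : u w = (f w)⁻¹ := by simp [hu, hφ, h1, h2]
      refine (g1 w e).self_of_nhds.trans ?_
      simp only [h3]
      exact mul_inv_cancel₀ fun e' => u0 w e (by rw [h3, e', inv_zero])
    obtain ⟨l', hl'⟩ := ih (f := g) (fun z hz hZ => by
      by_cases e : z = a
      · subst e
        exact ⟨continuousAt_const.congr g2.symm, by rw [g2.self_of_nhds]; exact one_ne_zero⟩
      · have h1 := h z hz (by simp [e, hZ])
        exact ⟨(h1.1.mul (cu z e)).congr (g1 z e).symm, by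
          rw [(g1 z e).self_of_nhds]; exact mul_ne_zero h1.2 (u0 z e)⟩) fun b hb => by
      have e : b ≠ a := fun e => ha (e ▸ hb)
      exact (((end_pn b).mul (hk b (by simp [hb])) (hasIdx_unit
        ((eventually_ne_nhds e).mono cu) (u0 b e))).cast (add_zero _)).congr
        ((g1 b e).symm.filter_mono nhdsWithin_le_nhds)
    refine ⟨fun z => l' z + φ z, fun z hz hZ => ?_⟩
    rw [Finset.mem_insert, not_or] at hZ
    obtain ⟨h1, h2⟩ := hl' z hz hZ.2
    refine ⟨h1.add (cφ z hZ.1), ?_⟩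
    rw [(g1 z hZ.1).self_of_nhds] at h2
    have h3 : u z * ((z - a) ^ k a * exp (φ z)) = 1 :=
      inv_mul_cancel₀ fun e => u0 z hZ.1 (inv_eq_zero.2 e)
    rw [Finset.prod_insert ha, exp_add]
    linear_combination ((z - a) ^ k a * exp (φ z)) * h2 - f z * h3

theorem hasWind_cir_sub {c : ℂ} {R : ℝ} (ha : a ∈ ball c R) :
    HasWind (fun θ => cir c R θ - a) 1 := by
  have hR := pos_of_mem_ball ha
  refine (hasWind_cir c hR).close (by fun_prop) (fun θ => by rw [cir_per]) fun θ => ?_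
  rw [norm_cir c hR.le, sub_sub_sub_cancel_left, ← dist_eq_norm']
  exact ha

/-- The winding number on a circle is the sum of the indices inside. -/
theorem wind_sum {U : Set ℂ} (hU : Convex ℝ U) (ho : IsOpen U) (Z : Finset ℂ)
    (h : ∀ z ∈ U, z ∉ Z → ContinuousAt f z ∧ f z ≠ 0) (hk : ∀ a ∈ Z, HasIdx f a (k a))
    {c : ℂ} {R : ℝ} (hR : 0 ≤ R) (hs : sphere c R ⊆ U) (hZ : ∀ a ∈ Z, a ∈ ball c R) :
    HasWind (fun θ => f (cir c R θ)) (∑ a ∈ Z, k a) := by
  obtain ⟨l, hl⟩ := factor hU ho Z h hk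
  have hm : ∀ θ, cir c R θ ∈ sphere c R := fun θ => mem_sphere_iff_norm.2 (norm_cir c hR θ)
  have h1 := fun θ => hl _ (hs (hm θ)) fun e => (mem_ball.1 (hZ _ e)).ne (hm θ)
  have h2 := (hasWind_prod Z fun a ha => hasWind_zpow (hasWind_cir_sub (hZ a ha)) (k a)).mul
    (hasWind_exp (l := fun θ => l (cir c R θ)) (continuous_iff_continuousAt.2 fun θ =>
      (h1 θ).1.comp (continuous_cir c R).continuousAt) fun θ => by rw [cir_per])
  simp only [mul_one, add_zero] at h2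
  exact h2.congr fun θ => (h1 θ).2.symm

theorem hasInf_sub (a : ℂ) : HasInf (fun z => z - a) 1 :=
  (end_inf 0).close (idx_id _) ((inf_iff 0).2 ⟨‖a‖ + 1, by positivity, fun z hz =>
    ⟨by fun_prop, by simp only [sub_sub_cancel_left, norm_neg, sub_zero] at *; linarith⟩⟩)

/-- The index at infinity is the sum of the indices in the plane. -/
theorem hasInf_sum (Z : Finset ℂ) (h : ∀ z ∉ Z, ContinuousAt f z ∧ f z ≠ 0)
    (hk : ∀ a ∈ Z, HasIdx f a (k a)) : HasInf f (∑ a ∈ Z, k a) := by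
  obtain ⟨l, hl⟩ := factor convex_univ isOpen_univ Z (fun z _ => h z) hk
  have h0 : ∀ᶠ z in cobounded ℂ, z ∉ Z := Z.finite_toSet.isBounded
  have h1 := (end_inf 0).mul ((end_inf 0).prod Z fun a _ => (hasInf_sub a).zpow (k a))
    (idx_exp (h0.mono fun z hz => (hl z trivial hz).1))
  simp only [one_mul, add_zero] at h1
  exact h1.congr (h0.mono fun z hz => (hl z trivial hz).2.symm)

theorem HasInf.inv0 {m : ℤ} (h : HasInf f m) : HasIdx (fun s => f s⁻¹) 0 (-m) := by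
  have := (end_pn 0).comp (σ := fun s => s⁻¹) (m := -1) h tendsto_inv₀_nhdsNE_zero
    (by simpa using (idx_id (𝓝[≠] 0)).inv)
  simpa using this

theorem HasIdx.inv0 {m : ℤ} (h : HasIdx f 0 m) : HasInf (fun s => f s⁻¹) (-m) := by
  have := (end_inf 0).comp (σ := fun s => s⁻¹) (m := -1) h tendsto_inv₀_cobounded'
    (by simpa using (idx_id (cobounded ℂ)).inv)
  simpa using this

theorem tendsto_add_pn (a : ℂ) : Tendsto (fun z => a + z) (𝓝[≠] 0) (𝓝[≠] a) :=
  tendsto_nhdsWithin_iff.2 ⟨by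
    simpa using ((continuous_const_add a).tendsto 0).mono_left nhdsWithin_le_nhds,
    eventually_nhdsWithin_of_forall fun z hz => by simpa using hz⟩

theorem tendsto_sub_pn (a : ℂ) : Tendsto (fun z => z - a) (𝓝[≠] a) (𝓝[≠] 0) :=
  tendsto_nhdsWithin_iff.2 ⟨by
    simpa using ((continuous_sub_right a).tendsto a).mono_left nhdsWithin_le_nhds,
    eventually_nhdsWithin_of_forall fun z hz => sub_ne_zero.2 hz⟩

theorem hasIdx_shift {m : ℤ} : HasIdx (fun z => f (a + z)) 0 m ↔ HasIdx f a m := by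
  constructor <;> intro h
  · simpa using (end_pn a).comp (m := 1) h (tendsto_sub_pn a) (by simpa using idx_sub _ a)
  · simpa using (end_pn 0).comp (m := 1) h (tendsto_add_pn a) (by simpa using idx_id _)

/-- The degree of a section of the bundle with transition function `s ^ m`. -/
theorem sum_sphere (Z : Finset ℂ) (h : ∀ z ∉ Z, ContinuousAt f z ∧ f z ≠ 0)
    (hk : ∀ a ∈ Z, HasIdx f a (k a)) {m k' : ℤ}
    (hg : ∀ᶠ s in 𝓝[≠] (0 : ℂ), g s = s ^ m * f s⁻¹) (hk' : HasIdx g 0 k') :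
    ∑ a ∈ Z, k a + k' = m := by
  have h1 := (end_pn 0).mul ((idx_id (𝓝[≠] 0)).zpow m) (hasInf_sum Z h hk).inv0
  have h2 := (end_pn 0).unique hk' (h1.congr (hg.mono fun _ h => h.symm))
  rw [h2]; ring

theorem ev_of_pn {P : ℂ → Prop} (h : ∀ᶠ z in 𝓝[≠] a, P z) (ha : P a) : ∀ᶠ z in 𝓝 a, P z :=
  (eventually_nhdsWithin_iff.1 h).mono fun z hz => by
    by_cases e : z = a
    · exact e ▸ ha
    · exact hz e

/-- The alternative given by the similarity principle. -/
def Alt (f : ℂ → ℂ) (a : ℂ) : Prop := (∀ᶠ z in 𝓝[≠] a, f z = 0) ∨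
  ∃ (l : ℕ) (b : ℂ), b ≠ 0 ∧ Tendsto (fun z => ((z - a) ^ l)⁻¹ * f z) (𝓝[≠] a) (𝓝 b)

theorem alt_shift (h : (∀ᶠ z in 𝓝[≠] (0 : ℂ), f (a + z) = 0) ∨ ∃ (l : ℕ) (b : ℂ), b ≠ 0 ∧
    Tendsto (fun z => (z ^ l)⁻¹ • f (a + z)) (𝓝[≠] 0) (𝓝 b)) : Alt f a := by
  rcases h with h | ⟨l, b, hb, h⟩
  · exact Or.inl (by simpa using (tendsto_sub_pn a).eventually h)
  · exact Or.inr ⟨l, b, hb, by simpa [Function.comp_def] using h.comp (tendsto_sub_pn a)⟩

theorem Alt.idx (h : Alt f a) (hc : ∀ᶠ z in 𝓝 a, ContinuousAt f z) :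
    (∀ᶠ z in 𝓝[≠] a, f z = 0) ∨ ∃ l : ℕ, HasIdx f a l ∧ (f a = 0 → 0 < l) := by
  refine h.imp_right fun ⟨l, b, hb, h⟩ => ⟨l, (end_pn a).of_lim hb
    (hc.filter_mono nhdsWithin_le_nhds) (by simpa using h), fun h0 => Nat.pos_of_ne_zero ?_⟩
  rintro rfl
  have h1 := hc.self_of_nhds.tendsto.mono_left (nhdsWithin_le_nhds (s := {a}ᶜ))
  exact hb ((tendsto_nhds_unique (by simpa using h) h1).trans h0)

/-- The zeros of a section of the bundle with transition function `s ^ m`. -/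
theorem zero_data (hf : Continuous f) (hg : ∀ᶠ s in 𝓝 (0 : ℂ), ContinuousAt g s) {m : ℤ}
    (e : ∀ᶠ s in 𝓝[≠] (0 : ℂ), g s = s ^ m * f s⁻¹) (h : ∀ a, f a = 0 → Alt f a) (h' : Alt g 0)
    (hne : ∃ z, f z ≠ 0) : ∃ (Z : Finset ℂ) (l : ℂ → ℕ) (l' : ℕ), (∀ z, z ∈ Z ↔ f z = 0) ∧
      (∀ a ∈ Z, 0 < l a ∧ HasIdx f a (l a)) ∧ HasIdx g 0 l' ∧ (g 0 = 0 → 0 < l') ∧
      ∑ a ∈ Z, (l a : ℤ) + l' = m := by
  have hc : ∀ a, ∀ᶠ z in 𝓝 a, ContinuousAt f z := fun a => .of_forall fun _ => hf.continuousAt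
  have hA : ∀ a, ¬∀ᶠ z in 𝓝[≠] a, f z = 0 := by
    have h1 : IsClopen {a | ∀ᶠ z in 𝓝 a, f z = 0} := by
      refine ⟨isClosed_of_closure_subset fun a ha => ?_, isOpen_setOfPred_eventually_nhds⟩
      have h2 : f a = 0 := (isClosed_eq hf continuous_const).closure_subset
        (closure_mono (fun z hz => Eventually.self_of_nhds hz) ha)
      rcases (h a h2).idx (hc a) with h3 | ⟨l, h3, -⟩
      · exact ev_of_pn h3 h2
      · by_contra hn
        have h4 := eventually_nhdsWithin_iff.1 ((end_pn a).ne_zero h3)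
        obtain ⟨z, h5, h6⟩ := (mem_closure_iff_frequently.1 ha).and_eventually h4 |>.exists
        exact h6 (fun e => hn (e ▸ h5)) (Eventually.self_of_nhds (p := fun w => f w = 0) h5)
    intro a ha
    obtain ⟨z, hz⟩ := hne
    have h2 : f a = 0 := tendsto_nhds_unique
      (hf.continuousAt.tendsto.mono_left nhdsWithin_le_nhds) 
      (tendsto_const_nhds.congr' (EventuallyEq.symm ha))
    have h3 := h1.eq_univ ⟨a, ev_of_pn ha h2⟩
    exact hz (Eventually.self_of_nhds (p := fun w => f w = 0)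
      (show z ∈ {a | ∀ᶠ z in 𝓝 a, f z = 0} from h3 ▸ trivial))
  have hi : ∀ a, ∃ l : ℕ, f a = 0 → 0 < l ∧ HasIdx f a l := fun a => by
    by_cases h0 : f a = 0
    · obtain ⟨l, h1, h2⟩ := ((h a h0).idx (hc a)).resolve_left (hA a)
      exact ⟨l, fun _ => ⟨h2 h0, h1⟩⟩
    · exact ⟨0, fun e => absurd e h0⟩
  choose l hl using hi
  obtain ⟨l', h1, h2⟩ := (h'.idx hg).resolve_left fun h0 => by
    have h3 : ∀ᶠ z in cobounded ℂ, f z = 0 := by
      filter_upwards [tendsto_inv₀_cobounded'.eventually ((h0.and e).and self_mem_nhdsWithin)]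
        with z hz
      have := hz.1.2.symm.trans hz.1.1
      rw [inv_inv] at this
      exact (mul_eq_zero.1 this).resolve_left (zpow_ne_zero _ hz.2)
    obtain ⟨a, ha⟩ := ((end_inf 0).op h3).exists
    exact hA a (ha.filter_mono nhdsWithin_le_nhds)
  have hb : IsBounded {z | f z = 0} := by
    change ∀ᶠ z in cobounded ℂ, ¬f z = 0
    filter_upwards [tendsto_inv₀_cobounded'.eventually (((end_pn 0).ne_zero h1).and e)]
      with z hz h0
    exact hz.1 (by rw [hz.2, inv_inv, h0, mul_zero])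
  have hfin : {z | f z = 0}.Finite :=
    (isCompact_of_isClosed_isBounded (isClosed_eq hf continuous_const) hb).finite
      (isDiscrete_of_codiscreteWithin (s := {z | f z = 0}) (mem_codiscreteWithin.2 fun a ha => by
        rw [disjoint_principal_right]
        exact ((end_pn a).ne_zero (hl a ha).2).mono fun z hz hm => hz hm.1) |>.mono
          fun _ h => ⟨h, h⟩)
  refine ⟨hfin.toFinset, l, l', fun z => hfin.mem_toFinset, fun a ha =>
    hl a (hfin.mem_toFinset.1 ha), h1, h2, sum_sphere _ (fun z hz => ⟨hf.continuousAt,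
      fun e => hz (hfin.mem_toFinset.2 e)⟩) (fun a ha => (hl a (hfin.mem_toFinset.1 ha)).2) e h1⟩

/-- A section with more than `m` zeros is zero. -/
theorem zero_count (hf : Continuous f) (hg : ∀ᶠ s in 𝓝 (0 : ℂ), ContinuousAt g s) {m : ℤ}
    (e : ∀ᶠ s in 𝓝[≠] (0 : ℂ), g s = s ^ m * f s⁻¹) (h : ∀ a, f a = 0 → Alt f a) (h' : Alt g 0)
    (T : Finset ℂ) (hT : ∀ a ∈ T, f a = 0) (hm : m < T.card) (z : ℂ) : f z = 0 := by
  by_contra hz
  obtain ⟨Z, l, l', h1, h2, -, -, h3⟩ := zero_data hf hg e h h' ⟨z, hz⟩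
  have h4 : T.card ≤ Z.card := Finset.card_le_card fun a ha => (h1 a).2 (hT a ha)
  have h5 : Z.card • 1 ≤ ∑ a ∈ Z, l a := Finset.card_nsmul_le_sum _ _ _ fun a ha => (h2 a ha).1
  rw [← Nat.cast_sum] at h3
  simp only [smul_eq_mul, mul_one] at h5
  omega

end Pool.Agent.Lib.MP_1c0d65_gt.W
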