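import Pool.Agent.Lib.MP_1c0d65_gt.W.Green

/-! The differential of the argument and its periods. -/

open Set Filter Topology Complex Metric Bornology MeasureTheory
open scoped Real

namespace Pool.Agent.Lib.MP_1c0d65_gt.W

open Pool.Agent.Lib.MP_1e9af3_an

section Gen

variable {V V' : Type*} [NormedAddCommGroup V] [NormedSpace ℝ V] [NormedAddCommGroup V']
  [NormedSpace ℝ V'] {f g : V → ℂ} {x : V}

/-- The differential of the argument of `f`. -/
noncomputable def darg (f : V → ℂ) (x : V) : V →L[ℝ] ℝ :=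
  imCLM.comp ((f x)⁻¹ • fderiv ℝ f x)

theorem darg_apply (f : V → ℂ) (x v : V) : darg f x v = (fderiv ℝ f x v / f x).im := by
  simp only [darg, ContinuousLinearMap.comp_apply, smul_apply, smul_eq_mul, imCLM_apply,
    div_eq_inv_mul]

theorem darg_congr (h : f =ᶠ[𝓝 x] g) : darg f x = darg g x := by
  simp only [darg, h.fderiv_eq, h.self_of_nhds]

theorem darg_const (c : ℂ) (x : V) : darg (fun _ => c) x = 0 := by
  ext v; simp [darg_apply]

theorem darg_mul (hf : DifferentiableAt ℝ f x) (hg : DifferentiableAt ℝ g x) (f0 : f x ≠ 0)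
    (g0 : g x ≠ 0) : darg (fun y => f y * g y) x = darg f x + darg g x := by
  ext v
  rw [add_apply, darg_apply, darg_apply, darg_apply, ← add_im, fderiv_fun_mul hf hg]
  congr 1
  simp only [add_apply, smul_apply, smul_eq_mul]
  field_simp
  ring

theorem darg_div (hf : DifferentiableAt ℝ f x) (hg : DifferentiableAt ℝ g x) (f0 : f x ≠ 0)
    (g0 : g x ≠ 0) : darg (fun y => f y / g y) x = darg f x - darg g x := by
  have hd : DifferentiableAt ℝ (fun y => f y / g y) x := by
    simp only [div_eq_mul_inv]; exact hf.mul (hg.inv g0)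
  rw [eq_sub_iff_add_eq, ← darg_mul hd hg (div_ne_zero f0 g0) g0]
  refine darg_congr ?_
  filter_upwards [hg.continuousAt.eventually_ne g0] with y hy
  field_simp

theorem darg_prod {ι : Type*} (s : Finset ι) {f : ι → V → ℂ}
    (hf : ∀ i ∈ s, DifferentiableAt ℝ (f i) x) (f0 : ∀ i ∈ s, f i x ≠ 0) :
    darg (fun y => ∏ i ∈ s, f i y) x = ∑ i ∈ s, darg (f i) x := by
  classical
  induction s using Finset.induction_on with
  | empty => simpa using darg_const 1 x
  | insert i s hi ih =>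
    have h1 := fun j hj => hf j (Finset.mem_insert_of_mem (b := i) hj)
    have h2 := fun j hj => f0 j (Finset.mem_insert_of_mem (b := i) hj)
    simp only [Finset.prod_insert hi, Finset.sum_insert hi]
    rw [darg_mul (hf i (by simp)) (by
      exact (HasFDerivAt.finsetProd fun j hj => (h1 j hj).hasFDerivAt).differentiableAt)
      (f0 i (by simp)) (Finset.prod_ne_zero_iff.2 h2), ih h1 h2]

theorem darg_pow (hf : DifferentiableAt ℝ f x) (f0 : f x ≠ 0) (n : ℕ) :
    darg (fun y => f y ^ n) x = (n : ℝ) • darg f x := by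
  have := darg_prod (Finset.range n) (f := fun _ => f) (fun _ _ => hf) fun _ _ => f0
  simpa [Nat.cast_smul_eq_nsmul] using this

theorem darg_comp {u : V' → V} {y : V'} (hf : DifferentiableAt ℝ f (u y))
    (hu : DifferentiableAt ℝ u y) :
    darg (fun w => f (u w)) y = (darg f (u y)).comp (fderiv ℝ u y) := by
  ext v
  rw [ContinuousLinearMap.comp_apply, darg_apply, darg_apply, fderiv_fun_comp y hf hu]
  rfl

theorem darg_exp (hf : DifferentiableAt ℝ f x) :
    darg (fun y => exp (f y)) x = imCLM.comp (fderiv ℝ f x) := by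
  ext v
  rw [darg_apply, hf.hasFDerivAt.cexp.fderiv]
  simp only [smul_apply, smul_eq_mul, ContinuousLinearMap.comp_apply, imCLM_apply]
  rw [mul_div_cancel_left₀ _ (exp_ne_zero _)]

theorem darg_real {p : V → ℝ} (hp : DifferentiableAt ℝ p x) :
    darg (fun y => (p y : ℂ)) x = 0 := by
  ext v
  have := (ofRealCLM.hasFDerivAt.comp x hp.hasFDerivAt).fderiv
  rw [darg_apply, show (fun y => (p y : ℂ)) = ofRealCLM ∘ p from rfl, this]
  simp [← ofReal_div]

theorem norm_darg_le (f : V → ℂ) (x : V) : ‖darg f x‖ ≤ ‖fderiv ℝ f x‖ / ‖f x‖ := by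
  refine ContinuousLinearMap.opNorm_le_bound _ (by positivity) fun v => ?_
  rw [darg_apply, div_mul_eq_mul_div]
  refine (abs_im_le_norm _).trans ?_
  rw [norm_div]
  exact div_le_div_of_nonneg_right (ContinuousLinearMap.le_opNorm _ _) (norm_nonneg _)

theorem contDiffAt_darg {m n : WithTop ℕ∞} (hf : ContDiffAt ℝ n f x) (f0 : f x ≠ 0)
    (hm : m + 1 ≤ n) : ContDiffAt ℝ m (darg f) x :=
  contDiffAt_const.clm_comp
    (((hf.of_le (le_self_add.trans hm)).inv f0).smul (hf.fderiv_right hm))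

theorem lift_eq {T : Type*} [TopologicalSpace T] {L Γ : T → ℂ} {t : T} (hL : ContinuousAt L t)
    (h : ∀ᶠ s in 𝓝 t, exp (L s) = Γ s) : L =ᶠ[𝓝 t] fun s => L t + log (Γ s / Γ t) := by
  have h1 : ContinuousAt (fun s => (L s - L t).im) t := by fun_prop
  have h2 : ∀ᶠ s in 𝓝 t, (L s - L t).im ∈ Ioo (-π) π :=
    h1.eventually (Ioo_mem_nhds (by simpa using Real.pi_pos) (by simpa using Real.pi_pos))
  filter_upwards [h, h2] with s hs h3
  rw [← hs, ← h.self_of_nhds, ← exp_sub, log_exp h3.1 h3.2.le]; ring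

theorem contDiffAt_log_div {n : WithTop ℕ∞} (hf : ContDiffAt ℝ n f x) (f0 : f x ≠ 0) :
    ContDiffAt ℝ n (fun y => log (f y / f x)) x :=
  ContDiffAt.comp (g := log) x
    ((contDiffAt_log (by simp [f0])).restrict_scalars ℝ) (hf.div_const _)

/-- A continuous logarithm of a smooth function is smooth. -/
theorem contDiffAt_lift {n : WithTop ℕ∞} {L : V → ℂ} (hL : ContinuousAt L x)
    (h : ∀ᶠ y in 𝓝 x, exp (L y) = f y) (hf : ContDiffAt ℝ n f x) : ContDiffAt ℝ n L x :=
  (contDiffAt_const.add (contDiffAt_log_div hf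
    (h.self_of_nhds ▸ exp_ne_zero _))).congr_of_eventuallyEq (lift_eq hL h)

/-- The form `d arg f` is closed. -/
theorem darg_closed (hf : ContDiffAt ℝ 2 f x) (f0 : f x ≠ 0) (v w : V) :
    fderiv ℝ (darg f) x v w = fderiv ℝ (darg f) x w v := by
  set l : V → ℂ := fun y => log (f x) + log (f y / f x) with hl
  have l2 : ContDiffAt ℝ 2 l x := contDiffAt_const.add (contDiffAt_log_div hf f0)
  have e1 : ∀ᶠ y in 𝓝 x, f y = exp (l y) := by
    filter_upwards [hf.continuousAt.eventually_ne f0] with y hy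
    rw [hl, exp_add, exp_log f0, exp_log (div_ne_zero hy f0)]; field_simp
  have e2 : darg f =ᶠ[𝓝 x] fun y => imCLM.comp (fderiv ℝ l y) := by
    filter_upwards [e1.eventually_nhds, l2.eventually (by simp)] with y h1 h2
    rw [darg_congr h1, darg_exp (h2.differentiableAt two_ne_zero)]
  have d2 : DifferentiableAt ℝ (fderiv ℝ l) x :=
    (l2.fderiv_right (m := 1) le_rfl).differentiableAt one_ne_zero
  have e3 := ((hasFDerivAt_const (imCLM : ℂ →L[ℝ] ℝ) x).clm_comp d2.hasFDerivAt).fderiv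
  rw [e2.fderiv_eq, e3]
  simpa using congrArg im (l2.isSymmSndFDerivAt (by simp) v w)

end Gen

variable {f : ℂ → ℂ} {a : ℂ} {r : ℝ} {k : ℤ}

theorem dd_darg {z : ℂ} (hf : ContDiffAt ℝ 2 f z) (f0 : f z ≠ 0) : dd (darg f) z = 0 :=
  sub_eq_zero.2 (darg_closed hf f0 1 I)

theorem cir_div (a : ℂ) (r θ : ℝ) : cir a r (θ / (2 * π)) = circleMap a r θ := by
  have : (π : ℂ) ≠ 0 := by exact_mod_cast Real.pi_ne_zero
  simp only [cir, ee, tpi, circleMap]
  congr 3
  push_cast
  field_simp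

theorem cp_int {W : Type*} [NormedAddCommGroup W] [NormedSpace ℝ W] {ψ : ℂ → ℂ →L[ℝ] W}
    (h : ∀ θ, ContinuousAt ψ (circleMap a r θ)) : IntervalIntegrable
      (fun θ => ψ (circleMap a r θ) (circleMap 0 r θ * I)) volume (-π) π := by
  have h1 : Continuous fun θ => ψ (circleMap a r θ) := continuous_iff_continuousAt.2 fun θ =>
    (h θ).comp (continuous_circleMap a r).continuousAt
  exact (h1.clm_apply ((continuous_circleMap 0 r).mul continuous_const)).intervalIntegrable _ _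

theorem cp_add {W : Type*} [NormedAddCommGroup W] [NormedSpace ℝ W] {ψ φ : ℂ → ℂ →L[ℝ] W}
    (h : ∀ θ, ContinuousAt ψ (circleMap a r θ)) (h' : ∀ θ, ContinuousAt φ (circleMap a r θ)) :
    cp (fun z => ψ z + φ z) a r = cp ψ a r + cp φ a r :=
  intervalIntegral.integral_add (cp_int h) (cp_int h')

theorem cp_smul {W : Type*} [NormedAddCommGroup W] [NormedSpace ℝ W] (ψ : ℂ → ℂ →L[ℝ] W)
    (c : ℝ) : cp (fun z => c • ψ z) a r = c • cp ψ a r := intervalIntegral.integral_smul c _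

/-- The period of an exact form is zero. -/
theorem cp_fderiv {W : Type*} [NormedAddCommGroup W] [NormedSpace ℝ W] [CompleteSpace W]
    {g : ℂ → W} (h : ∀ θ, ContDiffAt ℝ 1 g (circleMap a r θ)) : cp (fderiv ℝ g) a r = 0 := by
  have := intervalIntegral.integral_eq_sub_of_hasDerivAt (f := fun θ => g (circleMap a r θ))
    (fun θ _ => ((h θ).differentiableAt one_ne_zero).hasFDerivAt.comp_hasDerivAt θ
      (hasDerivAt_circleMap a r θ)) (cp_int fun θ => (h θ).continuousAt_fderiv one_ne_zero)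
  rw [cp, this, ← periodic_circleMap a r (-π), show -π + 2 * π = π by ring, sub_self]

/-- The period of `d arg f` is `2 π` times the winding number. -/
theorem cp_darg (hw : HasWind (fun θ => f (cir a r θ)) k)
    (hf : ∀ θ, ContDiffAt ℝ 1 f (circleMap a r θ)) : cp (darg f) a r = 2 * π * k := by
  obtain ⟨l, hl, he, hp⟩ := hw
  set L : ℝ → ℂ := fun θ => tpi * l (θ / (2 * π)) with hL
  have h1 : ∀ θ, exp (L θ) = f (circleMap a r θ) := fun θ => by rw [← cir_div]; exact he _
  have h0 : ∀ θ, f (circleMap a r θ) ≠ 0 := fun θ => h1 θ ▸ exp_ne_zero _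
  have hd : ∀ θ, HasDerivAt (fun θ => (L θ).im)
      (darg f (circleMap a r θ) (circleMap 0 r θ * I)) θ := fun θ => by
    have h2 := ((hf θ).differentiableAt one_ne_zero).hasFDerivAt.comp_hasDerivAt θ
      (hasDerivAt_circleMap a r θ)
    have h3 := ((h2.div_const (f (circleMap a r θ))).clog_real
      (by simp [h0 θ])).const_add (L θ)
    have h4 := h3.congr_of_eventuallyEq (lift_eq (L := L) (Γ := fun θ => f (circleMap a r θ))
      (by rw [hL]; fun_prop) (Eventually.of_forall h1))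
    have h5 := imCLM.hasFDerivAt.comp_hasDerivAt θ h4
    simp only [Function.comp_apply, div_self (h0 θ), div_one, imCLM_apply] at h5
    rw [darg_apply]
    exact h5
  have := intervalIntegral.integral_eq_sub_of_hasDerivAt (fun θ _ => hd θ) (cp_int fun θ =>
    (contDiffAt_darg (m := 0) (hf θ) (h0 θ) (by simp)).continuousAt)
  have e : π / (2 * π) = -π / (2 * π) + 1 := by have := Real.pi_pos; field_simp; ring
  rw [cp, this, hL]
  simp only [e, hp, tpi]
  simp [mul_add]

variable {ψ φ : ℂ → ℂ →L[ℝ] ℝ} {lam : ℝ}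

theorem tendsto_res {F : Filter ℂ} {G : Filter ℝ}
    (hG : ∀ {P : ℂ → Prop}, (∀ᶠ z in F, P z) → ∀ᶠ r in G, 0 < r ∧ ∀ θ, P (circleMap a r θ))
    (hw : ∀ᶠ r in G, HasWind (fun θ => f (cir a r θ)) k) (h0 : ∀ᶠ z in F, f z ≠ 0)
    (hf : ∀ᶠ z in F, ContDiffAt ℝ 1 f z ∧ ContinuousAt ψ z)
    (h : Tendsto (fun z => ‖z - a‖ * ‖ψ z - lam • darg f z‖) F (𝓝 0)) :
    Tendsto (cp ψ a) G (𝓝 (lam * (2 * π * k))) := by
  have h1 := (tendsto_cp hG h).add_const (lam * (2 * π * k))
  rw [zero_add] at h1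
  refine h1.congr' ?_
  filter_upwards [hw, hG (hf.and h0)] with r h2 h3
  have h4 : ∀ θ, ContinuousAt (fun z => lam • darg f z) (circleMap a r θ) := fun θ =>
    (contDiffAt_darg (m := 0) (h3.2 θ).1.1 (h3.2 θ).2 (by simp)).continuousAt.const_smul lam
  rw [← cp_darg h2 fun θ => (h3.2 θ).1.1, ← smul_eq_mul, ← cp_smul,
    ← cp_add (ψ := fun z => ψ z - lam • darg f z) (fun θ => (h3.2 θ).1.2.sub (h4 θ)) h4]
  simp

/-- The residue at a point. -/
theorem HasIdx.res (hk : HasIdx f a k)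
    (hf : ∀ᶠ z in 𝓝[≠] a, ContDiffAt ℝ 1 f z ∧ ContinuousAt ψ z)
    (h : Tendsto (fun z => ‖z - a‖ * ‖ψ z - lam • darg f z‖) (𝓝[≠] a) (𝓝 0)) :
    Tendsto (cp ψ a) (𝓝[>] 0) (𝓝 (lam * (2 * π * k))) :=
  tendsto_res rad_pn hk.wind ((end_pn a).ne_zero hk) hf h

theorem HasIdx.res_bdd (hk : HasIdx f a k)
    (hf : ∀ᶠ z in 𝓝[≠] a, ContDiffAt ℝ 1 f z ∧ ContinuousAt ψ z)
    (h : (fun z => ψ z - lam • darg f z) =O[𝓝[≠] a] fun _ => (1 : ℝ)) :
    Tendsto (cp ψ a) (𝓝[>] 0) (𝓝 (lam * (2 * π * k))) := hk.res hf (small_of_bdd h)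

/-- The residue at infinity. -/
theorem HasInf.res (hk : HasInf f k)
    (hf : ∀ᶠ z in cobounded ℂ, ContDiffAt ℝ 1 f z ∧ ContinuousAt ψ z)
    (h : Tendsto (fun z => ‖z‖ * ‖ψ z - lam • darg f z‖) (cobounded ℂ) (𝓝 0)) :
    Tendsto (cp ψ 0) atTop (𝓝 (lam * (2 * π * k))) :=
  tendsto_res (rad_inf 0) hk.wind ((end_inf 0).ne_zero hk) hf (by simpa using h)

end Pool.Agent.Lib.MP_1c0d65_gt.W
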