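import Pool.Agent.Lib.MP_1c0d65_gt.W.Idx

/-! The formula of Green in the plane with finitely many punctures. -/

open Set Filter Topology Complex Metric Bornology MeasureTheory
open scoped Real

namespace Pool.Agent.Lib.MP_1c0d65_gt.W

variable {W : Type*} [NormedAddCommGroup W] [NormedSpace ℝ W]

/-- The density of the exterior derivative of a one-form. -/
noncomputable def dd (ψ : ℂ → ℂ →L[ℝ] W) (z : ℂ) : W := fderiv ℝ ψ z 1 I - fderiv ℝ ψ z I 1

/-- The integral of a one-form over a circle. -/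
noncomputable def cp (ψ : ℂ → ℂ →L[ℝ] W) (a : ℂ) (r : ℝ) : W :=
  ∫ θ in (-π)..π, ψ (circleMap a r θ) (circleMap 0 r θ * I)

variable {ψ φ : ℂ → ℂ →L[ℝ] W} {a : ℂ} {r R : ℝ}

theorem bil_rot (B : ℂ →L[ℝ] ℂ →L[ℝ] W) (e : ℂ) :
    B e (e * I) - B (e * I) e = normSq e • (B 1 I - B I 1) := by
  have h1 : e = e.re • (1 : ℂ) + e.im • I := by simp
  have h2 : e * I = (-e.im) • (1 : ℂ) + e.re • I := by apply Complex.ext <;> simp
  rw [h2, normSq_apply]
  generalize e.re = x at *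
  generalize e.im = y at *
  subst h1
  simp only [map_add, map_smul, add_apply, smul_apply]
  module

theorem continuousAt_dd {z : ℂ} (h : ContDiffAt ℝ 1 ψ z) : ContinuousAt (dd ψ) z := by
  have := h.continuousAt_fderiv one_ne_zero
  unfold dd
  fun_prop

theorem dd_congr {z : ℂ} (h : ψ =ᶠ[𝓝 z] φ) : dd ψ z = dd φ z := by
  simp only [dd, h.fderiv_eq]

theorem dd_add {z : ℂ} (h : DifferentiableAt ℝ ψ z) (h' : DifferentiableAt ℝ φ z) :
    dd (fun w => ψ w + φ w) z = dd ψ z + dd φ z := by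
  simp only [dd, fderiv_fun_add h h', add_apply]; abel

theorem norm_cm (a : ℂ) (hr : 0 ≤ r) (θ : ℝ) : ‖circleMap a r θ - a‖ = r := by
  simp [abs_of_nonneg hr]

theorem rad_pn {P : ℂ → Prop} (h : ∀ᶠ z in 𝓝[≠] a, P z) :
    ∀ᶠ r in 𝓝[>] (0 : ℝ), 0 < r ∧ ∀ θ, P (circleMap a r θ) := by
  obtain ⟨r, hr, h⟩ := pn_iff.1 h
  filter_upwards [Ioo_mem_nhdsGT hr] with s hs
  exact ⟨hs.1, fun θ => h _ (by rw [norm_cm a hs.1.le]; exact hs.1)
    (by rw [norm_cm a hs.1.le]; exact hs.2)⟩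

theorem rad_inf (a : ℂ) {P : ℂ → Prop} (h : ∀ᶠ z in cobounded ℂ, P z) :
    ∀ᶠ r in atTop, 0 < r ∧ ∀ θ, P (circleMap a r θ) := by
  obtain ⟨r, hr, h⟩ := (inf_iff a).1 h
  filter_upwards [eventually_gt_atTop r] with s hs
  exact ⟨hr.trans hs, fun θ => h _ (by rw [norm_cm a (hr.trans hs).le]; exact hs)⟩

theorem cp_congr (h : ∀ θ, ψ (circleMap a r θ) = φ (circleMap a r θ)) : cp ψ a r = cp φ a r := by
  simp only [cp, h]

theorem cp_pn (h : ψ =ᶠ[𝓝[≠] a] φ) : cp ψ a =ᶠ[𝓝[>] 0] cp φ a :=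
  (rad_pn h).mono fun _ h => cp_congr h.2

theorem cp_inf (a : ℂ) (h : ψ =ᶠ[cobounded ℂ] φ) : cp ψ a =ᶠ[atTop] cp φ a :=
  (rad_inf a h).mono fun _ h => cp_congr h.2

@[simp] theorem cp_zero (a : ℂ) (r : ℝ) : cp (fun _ => (0 : ℂ →L[ℝ] W)) a r = 0 := by simp [cp]

theorem norm_cp_le {ε : ℝ}
    (h : ∀ θ, ‖circleMap a r θ - a‖ * ‖ψ (circleMap a r θ)‖ ≤ ε) : ‖cp ψ a r‖ ≤ ε * (2 * π) := by
  have := intervalIntegral.norm_integral_le_of_norm_le_const (a := -π) (b := π) (C := ε)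
    (f := fun θ => ψ (circleMap a r θ) (circleMap 0 r θ * I)) fun θ _ => by
      refine (ContinuousLinearMap.le_opNorm _ _).trans (le_of_eq_of_le ?_ (h θ))
      simp [mul_comm]
  rwa [sub_neg_eq_add, ← two_mul, abs_of_pos Real.two_pi_pos] at this

theorem tendsto_cp {F : Filter ℂ} {G : Filter ℝ}
    (hG : ∀ {P : ℂ → Prop}, (∀ᶠ z in F, P z) → ∀ᶠ r in G, 0 < r ∧ ∀ θ, P (circleMap a r θ))
    (h : Tendsto (fun z => ‖z - a‖ * ‖ψ z‖) F (𝓝 0)) : Tendsto (cp ψ a) G (𝓝 0) := by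
  rw [NormedAddGroup.tendsto_nhds_zero]
  intro ε hε
  have h1 : 0 < ε / (2 * (2 * π)) := by have := Real.pi_pos; positivity
  filter_upwards [hG (h.eventually (ge_mem_nhds h1))] with r hr
  refine (norm_cp_le hr.2).trans_lt ?_
  have : ε / (2 * (2 * π)) * (2 * π) = ε / 2 := by have := Real.pi_pos; field_simp
  rw [this]; exact half_lt_self hε

theorem small_of_bdd (h : ψ =O[𝓝[≠] a] fun _ => (1 : ℝ)) :
    Tendsto (fun z => ‖z - a‖ * ‖ψ z‖) (𝓝[≠] a) (𝓝 0) := by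
  have h1 : Tendsto (fun z : ℂ => ‖z - a‖) (𝓝[≠] a) (𝓝 0) := by
    have : Tendsto (fun z : ℂ => ‖z - a‖) (𝓝 a) (𝓝 ‖a - a‖) :=
      (by fun_prop : ContinuousAt (fun z : ℂ => ‖z - a‖) a)
    simpa using this.mono_left nhdsWithin_le_nhds
  exact h1.zero_mul_isBoundedUnder_le (by
    simpa [Function.comp_def] using Asymptotics.isBigO_one_iff ℝ |>.1 h)

theorem cp_cont (h : ContinuousAt ψ a) : Tendsto (cp ψ a) (𝓝[>] 0) (𝓝 0) :=
  tendsto_cp rad_pn (small_of_bdd ((h.tendsto.isBigO_one ℝ).mono nhdsWithin_le_nhds))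

theorem meas_ann (a : ℂ) (r R : ℝ) : MeasurableSet {z : ℂ | r < ‖z - a‖ ∧ ‖z - a‖ < R} :=
  (isOpen_Ioo.preimage (by fun_prop : Continuous fun z : ℂ => ‖z - a‖)).measurableSet

variable [CompleteSpace W]

/-- The formula of Green on an annulus or a disc. -/
theorem green_ann (hr : 0 ≤ r) (hR : r ≤ R)
    (h : ∀ z, r ≤ ‖z - a‖ → ‖z - a‖ ≤ R → ContDiffAt ℝ 1 ψ z) :
    ∫ z in {z | r < ‖z - a‖ ∧ ‖z - a‖ < R}, dd ψ z = cp ψ a R - cp ψ a r := by
  set e : ℝ × ℝ → ℂ := fun p => exp (p.2 * I) with he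
  set Q : ℝ × ℝ → ℂ := fun p => p.1 * e p with hQ
  have hE : ∀ p, ∃ D : ℝ × ℝ →L[ℝ] ℂ, HasFDerivAt e D p ∧ D (1, 0) = 0 ∧ D (0, 1) = e p * I :=
    fun p => ⟨_, (((ofRealCLM.hasDerivAt (x := p.2)).mul_const I).cexp.hasFDerivAt.comp p
      hasFDerivAt_snd :), by simp, by simp [he]⟩
  choose De h1 h2 h3 using hE
  have hQ' : ∀ p, ∃ D : ℝ × ℝ →L[ℝ] ℂ, HasFDerivAt Q D p ∧ D (1, 0) = e p ∧
      D (0, 1) = p.1 • (e p * I) := fun p =>
    ⟨_, (ofRealCLM.hasFDerivAt.comp p hasFDerivAt_fst).mul (h1 p), by simp [h2], by simp [h3]⟩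
  choose DQ h4 h5 h6 using hQ'
  have hcm : ∀ b p, circleMap b p.1 p.2 = b + Q p := fun b p => rfl
  have hec : Continuous e := by rw [he]; fun_prop
  have hQc : Continuous Q := by rw [hQ]; fun_prop
  have hψ : ∀ p ∈ Icc ((r, -π) : ℝ × ℝ) (R, π), ContDiffAt ℝ 1 ψ (a + Q p) := fun p hp => by
    have := norm_cm a (hr.trans hp.1.1) p.2
    rw [hcm] at this
    exact h _ (this ▸ hp.1.1) (this ▸ hp.2.1)
  have hin : ∀ p ∈ Ioo r R ×ˢ Ioo (-π) π, p ∈ Icc ((r, -π) : ℝ × ℝ) (R, π) := fun p hp =>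
    ⟨⟨hp.1.1.le, hp.2.1.le⟩, hp.1.2.le, hp.2.2.le⟩
  have hc : ContinuousOn (fun p => ψ (a + Q p)) (Icc ((r, -π) : ℝ × ℝ) (R, π)) := fun p hp =>
    (ContinuousAt.comp (f := fun p => a + Q p) (hψ p hp).continuousAt
      (by fun_prop)).continuousWithinAt
  have hd : ∀ p ∈ Ioo r R ×ˢ Ioo (-π) π, HasFDerivAt (fun p => ψ (a + Q p))
      ((fderiv ℝ ψ (a + Q p)).comp (DQ p)) p := fun p hp =>
    HasFDerivAt.comp (f := fun p => a + Q p) p
      ((hψ p (hin p hp)).differentiableAt one_ne_zero).hasFDerivAt ((h4 p).const_add a)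
  have key := integral_divergence_prod_Icc_of_hasFDerivAt_of_le
    (fun p => ψ (a + Q p) (Q p * I)) (fun p => -ψ (a + Q p) (e p)) _ _ (r, -π) (R, π)
    ⟨hR, by linarith [Real.pi_pos]⟩ (hc.clm_apply (by fun_prop))
    (hc.clm_apply hec.continuousOn).neg
    (fun p hp => (hd p hp).clm_apply ((h4 p).mul_const I))
    (fun p hp => ((hd p hp).clm_apply (h1 p)).neg)
  have hv : ∀ p : ℝ × ℝ, ((ψ (a + Q p)).comp (I • DQ p) +
      ((fderiv ℝ ψ (a + Q p)).comp (DQ p)).flip (Q p * I)) (1, 0) +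
      (-((ψ (a + Q p)).comp (De p) + ((fderiv ℝ ψ (a + Q p)).comp (DQ p)).flip (e p))) (0, 1) =
      p.1 • dd ψ (a + Q p) := fun p => by
    have h7 := bil_rot (fderiv ℝ ψ (a + Q p)) (e p)
    rw [show normSq (e p) = 1 by simp [he, normSq_eq_norm_sq], one_smul] at h7
    have h8 : Q p * I = p.1 • (e p * I) := by simp [hQ, mul_assoc]
    rw [dd, ← h7, h8]
    simp only [add_apply, ContinuousLinearMap.comp_apply,
      smul_apply, ContinuousLinearMap.flip_apply,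
      neg_apply, h3, h5, h6, map_smul, smul_eq_mul, mul_comm I]
    module
  simp only [hv] at key
  have hi : IntegrableOn (fun p : ℝ × ℝ => p.1 • dd ψ (a + Q p)) (Icc (r, -π) (R, π)) :=
    ContinuousOn.integrableOn_compact isCompact_Icc fun p hp =>
      (continuousAt_fst.smul (ContinuousAt.comp (f := fun p => a + Q p)
        (continuousAt_dd (hψ p hp)) (by fun_prop))).continuousWithinAt
  have hπ : ∀ s, e (s, π) = e (s, -π) := fun s => by
    simp only [he, ofReal_neg, neg_mul, exp_neg, exp_pi_mul_I]; norm_num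
  have key2 := key hi
  simp only [hQ, hπ, sub_self, zero_add] at key2
  have e1 : ∀ s, cp ψ a s = ∫ θ in (-π)..π, ψ (a + s * e (s, θ)) (s * e (s, θ) * I) := fun s => by
    simp [cp, circleMap, he]
  rw [e1, e1, ← key2]
  rw [← integral_indicator (meas_ann a r R), ← integral_add_left_eq_self _ a,
    ← Complex.integral_comp_polarCoord_symm, polarCoord_target]
  have hB : MeasurableSet (Ioo r R ×ˢ (univ : Set ℝ)) := measurableSet_Ioo.prod .univ
  rw [setIntegral_congr_fun (measurableSet_Ioi.prod measurableSet_Ioo)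
    (g := (Ioo r R ×ˢ univ).indicator fun p : ℝ × ℝ => p.1 • dd ψ (a + p.1 * e p)),
    setIntegral_indicator hB]
  · refine setIntegral_congr_set ?_
    rw [prod_inter_prod, inter_univ, inter_eq_right.2 (show Ioo r R ⊆ Ioi 0 from fun s hs => hr.trans_lt hs.1),
      Icc_prod_eq,
      Measure.volume_eq_prod]
    exact Measure.set_prod_ae_eq Ioo_ae_eq_Icc Ioo_ae_eq_Icc
  · intro p hp
    have h7 : Complex.polarCoord.symm p = p.1 * e p := by
      rw [Complex.polarCoord_symm_apply, he]; simp [exp_mul_I]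
    have h8 : ‖a + p.1 * e p - a‖ = p.1 := norm_cm a (le_of_lt hp.1) p.2
    simp only [h7]
    by_cases hm : p.1 ∈ Ioo r R
    · rw [indicator_of_mem (show p ∈ Ioo r R ×ˢ univ from ⟨hm, trivial⟩),
        indicator_of_mem (by rw [mem_ofPred_eq, h8]; exact hm)]
    · rw [indicator_of_notMem (show p ∉ Ioo r R ×ˢ univ from fun h => hm h.1),
        indicator_of_notMem (by rw [mem_ofPred_eq, h8]; exact hm), smul_zero]

theorem green_one {c c' : W} (h : ∀ z ≠ a, ContDiffAt ℝ 1 ψ z) (hi : Integrable (dd ψ))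
    (h0 : Tendsto (cp ψ a) (𝓝[>] 0) (𝓝 c)) (h1 : Tendsto (cp ψ a) atTop (𝓝 c')) :
    ∫ z, dd ψ z = c' - c := by
  set A : ℕ → Set ℂ := fun n => {z | 1 / ((n : ℝ) + 1) < ‖z - a‖ ∧ ‖z - a‖ < n + 1} with hA
  have hm : Monotone A := fun n m hnm z hz => by
    have h2 : (n : ℝ) + 1 ≤ m + 1 := by exact_mod_cast Nat.succ_le_succ hnm
    exact ⟨(one_div_le_one_div_of_le (by positivity) h2).trans_lt hz.1, hz.2.trans_le h2⟩
  have hU : ⋃ n, A n = {a}ᶜ := by
    ext z
    simp only [mem_iUnion, mem_compl_iff, mem_singleton_iff]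
    constructor
    · rintro ⟨n, hn⟩ rfl
      exact absurd hn.1 (by simp; positivity)
    · intro hz
      obtain ⟨n, hn⟩ := exists_nat_one_div_lt (norm_pos_iff.2 (sub_ne_zero.2 hz))
      obtain ⟨m, hm'⟩ := exists_nat_gt ‖z - a‖
      have h2 : ((m : ℝ)) ≤ ((max n m : ℕ) : ℝ) := by exact_mod_cast le_max_right n m
      have h3 : (n : ℝ) + 1 ≤ ((max n m : ℕ) : ℝ) + 1 := by
        exact_mod_cast Nat.succ_le_succ (le_max_left n m)
      exact ⟨max n m, (one_div_le_one_div_of_le (by positivity) h3).trans_lt hn, by linarith⟩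
  have t1 := tendsto_setIntegral_of_monotone (s := A) (f := dd ψ) (μ := volume)
    (fun n => meas_ann a _ _) hm hi.integrableOn
  rw [hU, restrict_compl_singleton] at t1
  have t2 : Tendsto (fun n : ℕ => (n : ℝ) + 1) atTop atTop :=
    tendsto_atTop_add_const_right _ _ tendsto_natCast_atTop_atTop
  have t3 : Tendsto (fun n : ℕ => 1 / ((n : ℝ) + 1)) atTop (𝓝[>] 0) :=
    tendsto_nhdsWithin_iff.2 ⟨tendsto_one_div_add_atTop_nhds_zero_nat,
      Eventually.of_forall fun n => (by positivity : (0 : ℝ) < 1 / ((n : ℝ) + 1))⟩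
  refine tendsto_nhds_unique t1 (((h1.comp t2).sub (h0.comp t3)).congr fun n => ?_)
  have h2 : (0 : ℝ) < 1 / ((n : ℝ) + 1) := by positivity
  refine (green_ann h2.le ?_ fun z hz _ => h z ?_).symm
  · have : (0 : ℝ) ≤ n := n.cast_nonneg
    exact (one_div_le_one_div_of_le one_pos (by linarith)).trans (by linarith)
  · rintro rfl
    simp only [sub_self, norm_zero] at hz
    linarith

/-- The formula of Green in the punctured plane. -/
theorem green (Z : Finset ℂ) {c : ℂ → W} {c' : W} (h : ∀ z ∉ Z, ContDiffAt ℝ 1 ψ z)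
    (hi : Integrable (dd ψ)) (h0 : ∀ a ∈ Z, Tendsto (cp ψ a) (𝓝[>] 0) (𝓝 (c a)))
    (h1 : Tendsto (cp ψ 0) atTop (𝓝 c')) : ∫ z, dd ψ z = c' - ∑ a ∈ Z, c a := by
  classical
  induction Z using Finset.induction_on generalizing ψ with
  | empty =>
    exact green_one (fun z _ => h z (by simp)) hi (cp_cont (h 0 (by simp)).continuousAt) h1
  | insert a Z ha ih =>
    obtain ⟨ε, hε, hb⟩ := Metric.isOpen_iff.1 Z.finite_toSet.isClosed.isOpen_compl a ha
    let ρ : ContDiffBump a := ⟨ε / 4, ε / 2, by positivity, by linarith⟩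
    have hρ : ContDiff ℝ 1 ρ := ρ.contDiff
    have r1 : ∀ z ∈ ball a (ε / 4), (fun w => ρ w • ψ w) =ᶠ[𝓝 z] ψ := fun z hz =>
      (ρ.eventuallyEq_one_of_mem_ball hz).mono fun w hw => by simp [hw]
    have r0 : ∀ z ∉ closedBall a (ε / 2), (fun w => ρ w • ψ w) =ᶠ[𝓝 z] fun _ => 0 := fun z hz => by
      filter_upwards [isClosed_closedBall.isOpen_compl.mem_nhds hz] with w hw
      rw [ρ.zero_of_le_dist (not_le.1 (show ¬dist w a ≤ ε / 2 from hw)).le, zero_smul]
    have hZ : ∀ z ∈ Z, z ∉ closedBall a (ε / 2) := fun z hz hm =>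
      hb (closedBall_subset_ball (half_lt_self hε) hm) hz
    have c1 : ∀ z ≠ a, ContDiffAt ℝ 1 (fun w => ρ w • ψ w) z := fun z hz => by
      by_cases hm : z ∈ Z
      · exact contDiffAt_const.congr_of_eventuallyEq (r0 z (hZ z hm))
      · exact hρ.contDiffAt.smul (h z (by simp [hz, hm]))
    have c2 : ∀ z ∉ Z, ContDiffAt ℝ 1 (fun w => ψ w - ρ w • ψ w) z := fun z hz => by
      by_cases hm : z = a
      · refine (contDiffAt_const (c := 0)).congr_of_eventuallyEq ?_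
        exact (r1 z (hm ▸ mem_ball_self (by positivity))).mono fun w hw => sub_eq_zero.2 hw.symm
      · exact (h z (by simp [hz, hm])).sub (c1 z hm)
    have i1 : Integrable (dd fun w => ρ w • ψ w) := by
      have j1 : IntegrableOn (dd fun w => ρ w • ψ w) (ball a (ε / 4)) :=
        hi.integrableOn.congr_fun (fun z hz => (dd_congr (r1 z hz)).symm) measurableSet_ball
      have j2 : IntegrableOn (dd fun w => ρ w • ψ w) (closedBall a (ε / 2) \ ball a (ε / 4)) :=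
        ContinuousOn.integrableOn_compact ((isCompact_closedBall _ _).diff isOpen_ball)
          fun z hz => (continuousAt_dd (c1 z fun e =>
            hz.2 (e ▸ mem_ball_self (by positivity)))).continuousWithinAt
      refine (j1.union j2).integrable_of_forall_notMem_eq_zero fun z hz => ?_
      rw [dd_congr (r0 z fun hm => hz (by by_cases h' : z ∈ ball a (ε / 4) <;> simp_all))]
      simp [dd]
    have ae : ∀ᵐ z : ℂ, dd ψ z = dd (fun w => ρ w • ψ w) z + dd (fun w => ψ w - ρ w • ψ w) z := by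
      have : ∀ᵐ z : ℂ, z ∉ (insert a Z : Finset ℂ) :=
        (insert a Z).finite_toSet.countable.ae_notMem volume
      filter_upwards [this] with z hz
      rw [Finset.mem_insert, not_or] at hz
      rw [← dd_add ((c1 z hz.1).differentiableAt one_ne_zero)
        ((c2 z hz.2).differentiableAt one_ne_zero)]
      simp
    have i2 : Integrable (dd fun w => ψ w - ρ w • ψ w) :=
      (hi.sub i1).congr (ae.mono fun z hz => by simp [hz])
    have far : ∀ᶠ z in cobounded ℂ, ρ z • ψ z = 0 :=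
      (inf_iff a).2 ⟨ε / 2, by positivity, fun z hz =>
        (r0 z (by simpa [dist_eq_norm] using hz)).self_of_nhds⟩
    have g1 := green_one (c' := 0) c1 i1 ((h0 a (by simp)).congr' (cp_pn
      ((r1 a (mem_ball_self (by positivity))).symm.filter_mono nhdsWithin_le_nhds)))
      (tendsto_const_nhds.congr' ((cp_inf a far).mono fun s hs => by rw [hs, cp_zero]))
    have g2 := ih c2 i2 (fun b hb' => (h0 b (by simp [hb'])).congr' (cp_pn
      (((r0 b (hZ b hb')).mono fun w hw => by simp only at hw; simp [hw]).filter_mono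
        nhdsWithin_le_nhds)))
      (h1.congr' (cp_inf 0 (far.mono fun w hw => by simp [hw])))
    rw [integral_congr_ae ae, integral_add i1 i2, g1, g2, Finset.sum_insert ha]
    abel

/-- Stokes in the plane for a form that decays faster than `1 / |z|`. -/
theorem green_inf (h : ContDiff ℝ 1 ψ) (hi : Integrable (dd ψ))
    (h1 : Tendsto (fun z => ‖z‖ * ‖ψ z‖) (cobounded ℂ) (𝓝 0)) : ∫ z, dd ψ z = 0 := by
  simpa using green ∅ (c := fun _ => 0) (c' := 0) (fun z _ => h.contDiffAt) hi (by simp)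
    (tendsto_cp (rad_inf 0) (by simpa using h1))

omit [CompleteSpace W] in
/-- The chart at infinity. -/
theorem cp_inv (hr : 0 < r)
    (h : ∀ s v, ‖s‖ = r⁻¹ → φ s v = ψ s⁻¹ (-(s ^ 2)⁻¹ * v)) : cp ψ 0 r = -cp φ 0 r⁻¹ := by
  have h1 : ∀ θ, φ (circleMap 0 r⁻¹ θ) (circleMap 0 r⁻¹ θ * I) =
      -ψ (circleMap 0 r (-θ)) (circleMap 0 r (-θ) * I) := fun θ => by
    have h2 : (circleMap 0 r⁻¹ θ)⁻¹ = circleMap 0 r (-θ) := by simp [circleMap_zero_inv]
    have h3 : circleMap 0 r⁻¹ θ ≠ 0 := circleMap_ne_center (inv_pos.2 hr).ne'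
    rw [h _ _ (by simp [abs_of_pos hr]), ← map_neg, ← h2]
    congr 1
    field_simp
  simp only [cp, h1, intervalIntegral.integral_neg, neg_neg]
  rw [intervalIntegral.integral_comp_neg
    (f := fun θ => ψ (circleMap 0 r θ) (circleMap 0 r θ * I)), neg_neg]

/-- The formula of Green on the punctured sphere, read in the two charts. -/
theorem green_sphere (Z : Finset ℂ) {c : ℂ → W} {c' : W} (h : ∀ z ∉ Z, ContDiffAt ℝ 1 ψ z)
    (hi : Integrable (dd ψ)) (h0 : ∀ a ∈ Z, Tendsto (cp ψ a) (𝓝[>] 0) (𝓝 (c a)))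
    (hφ : ∀ᶠ s in 𝓝[≠] (0 : ℂ), ∀ v, φ s v = ψ s⁻¹ (-(s ^ 2)⁻¹ * v))
    (h1 : Tendsto (cp φ 0) (𝓝[>] 0) (𝓝 c')) : ∫ z, dd ψ z = -(c' + ∑ a ∈ Z, c a) := by
  rw [neg_add, ← sub_eq_add_neg]
  refine green Z h hi h0 ((h1.comp tendsto_inv_atTop_nhdsGT_zero).neg.congr' ?_)
  obtain ⟨δ, hδ, hφ⟩ := pn_iff.1 hφ
  filter_upwards [eventually_gt_atTop δ⁻¹] with r hr
  have hr0 : 0 < r := (inv_pos.2 hδ).trans hr
  refine (cp_inv hr0 fun s v hs => hφ s ?_ ?_ v).symm
  · simpa [hs] using hr0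
  · simpa [hs] using inv_lt_of_inv_lt₀ hδ hr

end Pool.Agent.Lib.MP_1c0d65_gt.W
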